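import Mathlib
import Pool.Agent.H469R2.NK.KL

set_option autoImplicit false

open Finset
open Pool.Agent.H469R2.NK (e norm_e e_add e_zero e_nat kusmin_landau_mono)

namespace Pool.Agent.Y937.EP

/-- truncated Fresnel integral -/
noncomputable def J (t : ℝ) : ℂ := ∫ u in (0:ℝ)..t, e (u ^ 2 / 12)

lemma continuous_e : Continuous e := by
  unfold e
  fun_prop

lemma e_lip (x y : ℝ) : ‖e x - e y‖ ≤ 2 * Real.pi * |x - y| := by
  have h : e x - e y = e y * (e (x - y) - 1) := by
    rw [mul_sub, ← e_add, mul_one]; congr 2; ring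
  rw [h, norm_mul, norm_e, one_mul]
  unfold e
  have h2 := Real.norm_exp_I_mul_ofReal_sub_one_le (x := 2 * Real.pi * (x - y))
  rw [mul_comm Complex.I] at h2
  refine h2.trans ?_
  rw [Real.norm_eq_abs, abs_mul, abs_of_pos (by positivity)]

lemma int_e (a b : ℝ) : IntervalIntegrable (fun u : ℝ => e (u ^ 2 / 12)) MeasureTheory.volume a b :=
  (continuous_e.comp (by fun_prop)).intervalIntegrable a b

lemma J_lip (s t : ℝ) : ‖J s - J t‖ ≤ |s - t| := by
  unfold J
  rw [intervalIntegral.integral_interval_sub_left (int_e _ _) (int_e _ _)]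
  have := intervalIntegral.norm_integral_le_of_norm_le_const (a := t) (b := s)
    (f := fun u : ℝ => e (u ^ 2 / 12)) (C := 1) (fun u _ => (norm_e _).le)
  linarith

/-- Riemann sum -/
lemma riemann (r : ℝ) (hr : 0 < r) (H : ℕ) :
    ‖∑ h ∈ range H, e ((h : ℝ) ^ 2 / (12 * r ^ 2)) - r * J (H / r)‖ ≤
      Real.pi / 6 * (H : ℝ) ^ 2 / r ^ 2 := by
  induction H with
  | zero => simp [J]
  | succ H ih =>
    have h0 : J ((H + 1 : ℕ) / r) = J (H / r) + ∫ u in ((H : ℝ) / r)..((H + 1 : ℕ) / r), e (u ^ 2 / 12) := by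
      unfold J
      rw [intervalIntegral.integral_add_adjacent_intervals (int_e _ _) (int_e _ _)]
    have h1 : ‖e ((H : ℝ) ^ 2 / (12 * r ^ 2)) - r * ∫ u in ((H : ℝ) / r)..((H + 1 : ℕ) / r), e (u ^ 2 / 12)‖ ≤
        Real.pi / 6 * (2 * H + 1) / r ^ 2 := by
      have h2 : e ((H : ℝ) ^ 2 / (12 * r ^ 2)) = r * ∫ u in ((H : ℝ) / r)..((H + 1 : ℕ) / r), e ((H : ℝ) ^ 2 / (12 * r ^ 2)) := by
        rw [intervalIntegral.integral_const]
        have : ((H + 1 : ℕ) / r - H / r : ℝ) = 1 / r := by push_cast; ring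
        rw [this, Complex.real_smul]
        push_cast
        have hrc : (r : ℂ) ≠ 0 := by exact_mod_cast hr.ne'
        field_simp
      rw [h2, ← mul_sub, ← intervalIntegral.integral_sub (by simp) (int_e _ _), norm_mul,
        Complex.norm_real, Real.norm_eq_abs, abs_of_pos hr]
      have hle : (H : ℝ) / r ≤ (H + 1 : ℕ) / r := by
        gcongr; push_cast; linarith
      have h3 := intervalIntegral.norm_integral_le_of_norm_le_const (a := (H : ℝ) / r) (b := (H + 1 : ℕ) / r)
        (f := fun u : ℝ => e ((H : ℝ) ^ 2 / (12 * r ^ 2)) - e (u ^ 2 / 12)) (C := Real.pi / 6 * (2 * H + 1) / r ^ 2) (by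
          intro u hu
          rw [Set.uIoc_of_le hle] at hu
          refine (e_lip _ _).trans ?_
          have hu1 : (H : ℝ) < u * r := by
            have := hu.1; rwa [div_lt_iff₀ hr] at this
          have hu2 : u * r ≤ H + 1 := by
            have := hu.2; rw [le_div_iff₀ hr] at this; push_cast at this; exact this
          have e1 : (H : ℝ) ^ 2 / (12 * r ^ 2) - u ^ 2 / 12 = -(((u * r) ^ 2 - H ^ 2) / (12 * r ^ 2)) := by
            field_simp
            ring
          have hH : (0 : ℝ) ≤ H := Nat.cast_nonneg H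
          rw [e1, abs_neg, abs_of_nonneg (by
            apply div_nonneg _ (by positivity)
            nlinarith)]
          have : ((u * r) ^ 2 - H ^ 2) / (12 * r ^ 2) ≤ (2 * H + 1) / (12 * r ^ 2) := by
            gcongr
            nlinarith
          calc 2 * Real.pi * (((u * r) ^ 2 - H ^ 2) / (12 * r ^ 2)) ≤ 2 * Real.pi * ((2 * H + 1) / (12 * r ^ 2)) := by
                gcongr
            _ = _ := by ring)
      have e2 : |((H + 1 : ℕ) / r - H / r : ℝ)| = 1 / r := by
        have : ((H + 1 : ℕ) / r - H / r : ℝ) = 1 / r := by push_cast; ring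
        rw [this, abs_of_pos (by positivity)]
      rw [e2] at h3
      calc r * _ ≤ r * (Real.pi / 6 * (2 * H + 1) / r ^ 2 * (1 / r)) := by gcongr
        _ = _ := by field_simp
    rw [sum_range_succ, h0, mul_add]
    have e3 : ∑ h ∈ range H, e ((h : ℝ) ^ 2 / (12 * r ^ 2)) + e ((H : ℝ) ^ 2 / (12 * r ^ 2)) -
        (r * J (H / r) + r * ∫ u in ((H : ℝ) / r)..((H + 1 : ℕ) / r), e (u ^ 2 / 12)) =
        (∑ h ∈ range H, e ((h : ℝ) ^ 2 / (12 * r ^ 2)) - r * J (H / r)) +
        (e ((H : ℝ) ^ 2 / (12 * r ^ 2)) - r * ∫ u in ((H : ℝ) / r)..((H + 1 : ℕ) / r), e (u ^ 2 / 12)) := by ring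
    rw [e3]
    refine (norm_add_le _ _).trans ((add_le_add ih h1).trans (le_of_eq ?_))
    push_cast
    ring

/-- the generic block estimate -/
lemma block (r A : ℝ) (hr : 1 ≤ r) (hA : 1 ≤ A) (hrA : A ≤ r) (N : ℕ) (x : ℕ → ℝ) (D : ℝ) (hD : 0 ≤ D)
    (hx : ∀ n : ℕ, (n : ℝ) ≤ A * r → |x n - (n : ℝ) ^ 2 / (12 * r ^ 2)| ≤ D / r ^ 3 * ((n : ℝ) ^ 3 / r ^ 3))
    (hN : A * r ≤ N)
    (h0 : ∀ n < N, (n : ℝ) / (9 * r ^ 2) ≤ x (n + 1) - x n)
    (h1 : ∀ n < N, x (n + 1) - x n ≤ 2 / 3)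
    (hm : ∀ n, n + 1 < N → x (n + 1) - x n ≤ x (n + 2) - x (n + 1)) :
    ‖∑ n ∈ range N, e (x n) - r * J A‖ ≤ A ^ 2 + 2 + 7 * D * A ^ 4 / r ^ 2 + 36 * r / A := by
  have hr0 : 0 < r := by linarith
  have hA0 : 0 < A := by linarith
  set H : ℕ := ⌊A * r⌋₊ with hH
  have hH1 : (H : ℝ) ≤ A * r := Nat.floor_le (by positivity)
  have hH2 : A * r < H + 1 := Nat.lt_floor_add_one _
  have hHN : H ≤ N := by
    have : (H : ℝ) ≤ N := hH1.trans hN
    exact_mod_cast this
  have hAr1 : 1 ≤ A * r := by nlinarith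
  have hH3 : 1 ≤ H := Nat.le_floor (by simpa using hAr1)
  have hHhalf : A * r / 2 ≤ H := by
    have : (1 : ℝ) ≤ H := by exact_mod_cast hH3
    linarith
  -- split
  have hsplit : ∑ n ∈ range N, e (x n) = ∑ n ∈ range H, e (x n) + ∑ n ∈ range (N - H), e (x (H + n)) := by
    rw [← sum_range_add_sum_Ico _ hHN, sum_Ico_eq_sum_range]
  -- tail
  have htail : ‖∑ n ∈ range (N - H), e (x (H + n))‖ ≤ 36 * r / A := by
    rcases Nat.eq_or_lt_of_le hHN with hEq | hlt
    · rw [hEq]; simp; positivity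
    have hθ : 0 < (H : ℝ) / (9 * r ^ 2) := by
      have : (0:ℝ) < H := by exact_mod_cast hH3
      positivity
    have hθ2 : (H : ℝ) / (9 * r ^ 2) ≤ 1 / 3 := by
      rw [div_le_div_iff₀ (by positivity) (by norm_num)]
      nlinarith
    have hk := kusmin_landau_mono (fun n => x (H + n)) (N - H) hθ (by
        intro n hn
        have h := h0 (H + n) (by omega)
        refine le_trans ?_ h
        gcongr
        push_cast
        linarith [(Nat.cast_nonneg n : (0:ℝ) ≤ n)]) (by
        intro n hn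
        have h := h1 (H + n) (by omega)
        have : x (H + (n + 1)) = x (H + n + 1) := rfl
        simp only [this]
        linarith) (by
        intro n hn
        exact hm (H + n) (by omega))
    refine hk.trans ?_
    rw [div_div_eq_mul_div, div_le_div_iff₀ (by exact_mod_cast hH3) hA0]
    nlinarith
  -- comparison
  have hcmp : ‖∑ n ∈ range H, e (x n) - ∑ n ∈ range H, e ((n : ℝ) ^ 2 / (12 * r ^ 2))‖ ≤ 7 * D * A ^ 4 / r ^ 2 := by
    rw [← sum_sub_distrib]
    refine (norm_sum_le _ _).trans ?_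
    calc ∑ n ∈ range H, ‖e (x n) - e ((n : ℝ) ^ 2 / (12 * r ^ 2))‖ ≤ ∑ n ∈ range H, (2 * Real.pi * (D / r ^ 3 * A ^ 3)) := by
          apply sum_le_sum
          intro n hn
          refine (e_lip _ _).trans ?_
          have hn' : (n : ℝ) ≤ A * r := by
            have : (n : ℝ) ≤ H := by exact_mod_cast (mem_range.mp hn).le
            linarith
          have h := hx n hn'
          have h2 : (n : ℝ) ^ 3 / r ^ 3 ≤ A ^ 3 := by
            rw [div_le_iff₀ (by positivity), ← mul_pow]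
            gcongr
          have h3 : |x n - (n : ℝ) ^ 2 / (12 * r ^ 2)| ≤ D / r ^ 3 * A ^ 3 := h.trans (by gcongr)
          gcongr
      _ = H * (2 * Real.pi * (D / r ^ 3 * A ^ 3)) := by rw [sum_const, card_range, nsmul_eq_mul]
      _ ≤ (A * r) * (2 * Real.pi * (D / r ^ 3 * A ^ 3)) := by gcongr
      _ = 2 * Real.pi * (D * A ^ 4 / r ^ 2) := by field_simp
      _ ≤ 7 * (D * A ^ 4 / r ^ 2) := by
          gcongr
          have := Real.pi_lt_d2
          linarith
      _ = _ := by ring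
  have hriem := riemann r hr0 H
  have hriem2 : Real.pi / 6 * (H : ℝ) ^ 2 / r ^ 2 ≤ A ^ 2 := by
    rw [div_le_iff₀ (by positivity)]
    have h1 : (H : ℝ) ^ 2 ≤ (A * r) ^ 2 := by gcongr
    have h2 := Real.pi_lt_d2
    have h3 := Real.pi_pos
    calc Real.pi / 6 * (H : ℝ) ^ 2 ≤ 1 * (A * r) ^ 2 := by
          apply mul_le_mul _ h1 (by positivity) (by norm_num)
          linarith
      _ = _ := by ring
  have hJ : ‖(r : ℂ) * J (H / r) - r * J A‖ ≤ 1 := by
    rw [← mul_sub, norm_mul, Complex.norm_real, Real.norm_eq_abs, abs_of_pos hr0]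
    have h := J_lip ((H : ℝ) / r) A
    have h2 : |(H : ℝ) / r - A| ≤ 1 / r := by
      rw [abs_sub_comm, abs_of_nonneg (by
        rw [sub_nonneg, div_le_iff₀ hr0]; exact hH1)]
      rw [sub_le_iff_le_add, ← add_div, le_div_iff₀ hr0]
      linarith
    calc r * ‖J (H / r) - J A‖ ≤ r * (1 / r) := by
          gcongr
          exact h.trans h2
      _ = 1 := by field_simp
  rw [hsplit]
  have e1 : ∑ n ∈ range H, e (x n) + ∑ n ∈ range (N - H), e (x (H + n)) - r * J A =
      (∑ n ∈ range H, e (x n) - ∑ n ∈ range H, e ((n : ℝ) ^ 2 / (12 * r ^ 2))) +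
      (∑ n ∈ range H, e ((n : ℝ) ^ 2 / (12 * r ^ 2)) - r * J (H / r)) +
      ((r : ℂ) * J (H / r) - r * J A) + ∑ n ∈ range (N - H), e (x (H + n)) := by ring
  rw [e1]
  refine (norm_add_le _ _).trans ?_
  refine (add_le_add (norm_add_le _ _) le_rfl).trans ?_
  refine (add_le_add (add_le_add (norm_add_le _ _) le_rfl) le_rfl).trans ?_
  linarith

end Pool.Agent.Y937.EP
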