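import Mathlib
import Pool.Agent.Y937.EP.Local

set_option autoImplicit false

open Finset
open Pool.Agent.H469R2.NK (e norm_e e_add e_zero e_nat conj_e)

namespace Pool.Agent.Y937.EP

lemma shift_sum (g : ℕ → ℂ) (P : ℕ) (hg : ∀ n, g (n + P) = g n) (k : ℕ) :
    ∑ h ∈ range P, g (h + k) = ∑ h ∈ range P, g h := by
  induction k with
  | zero => simp
  | succ k ih =>
    rw [← ih]
    have h1 : ∑ h ∈ range P, g (h + (k + 1)) = ∑ h ∈ range (P + 1), g (h + k) - g k := by
      rw [sum_range_succ']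
      simp only [zero_add, add_sub_cancel_right]
      refine sum_congr rfl fun h _ => ?_
      congr 1; ring
    rw [h1, sum_range_succ, add_comm P k, hg]
    ring

lemma geom_zero (P d : ℕ) (hd : 0 < d) (hdP : d < P) :
    ∑ k ∈ range P, e ((k : ℝ) * d / P) = 0 := by
  have hP : (0 : ℝ) < P := by exact_mod_cast (by omega : 0 < P)
  have h1 : ∀ k : ℕ, e ((k : ℝ) * d / P) = (e ((d : ℝ) / P)) ^ k := by
    intro k
    induction k with
    | zero => simp [e_zero]
    | succ k ih =>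
      rw [pow_succ, ← ih, ← e_add]
      congr 1; push_cast; ring
  simp only [h1]
  have h2 : e ((d : ℝ) / P) ≠ 1 := by
    intro h
    unfold e at h
    rw [Complex.exp_eq_one_iff] at h
    obtain ⟨n, hn⟩ := h
    have h3 : (((2 * Real.pi * ((d : ℝ) / P) : ℝ) : ℂ)) = ((n * (2 * Real.pi) : ℝ) : ℂ) := by
      have := hn
      push_cast at this ⊢
      have hI : Complex.I ≠ 0 := Complex.I_ne_zero
      apply mul_right_cancel₀ hI
      rw [this]; ring
    have h4 : (2 * Real.pi * ((d : ℝ) / P) : ℝ) = (n * (2 * Real.pi) : ℝ) := by exact_mod_cast h3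
    have h5 : ((d : ℝ) / P) = n := by
      have hpi := Real.pi_pos
      have : (2 * Real.pi) * ((d : ℝ) / P) = (2 * Real.pi) * n := by rw [h4]; ring
      exact mul_left_cancel₀ (by positivity) this
    have h6 : (0 : ℝ) < (d : ℝ) / P := by
      have : (0 : ℝ) < d := by exact_mod_cast hd
      positivity
    have h7 : (d : ℝ) / P < 1 := by
      rw [div_lt_one hP]; exact_mod_cast hdP
    rw [h5] at h6 h7
    have h8 : (0 : ℤ) < n := by exact_mod_cast h6
    have h9 : n < (1 : ℤ) := by exact_mod_cast h7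
    omega
  rw [geom_sum_eq h2, ← h1]
  have : (P : ℝ) * d / P = d := by field_simp
  rw [this, e_nat, sub_self, zero_div]

/-- modulus of the quadratic Gauss sum -/
lemma gauss_norm (P : ℕ) (hP : 0 < P) (hP2 : Even P) :
    ‖∑ n ∈ range P, e ((n : ℝ) ^ 2 / (2 * P))‖ ^ 2 = P := by
  obtain ⟨Q, hQ⟩ := hP2
  have hP0 : (0 : ℝ) < P := by exact_mod_cast hP
  have hPQ : (P : ℝ) = 2 * Q := by rw [hQ]; push_cast; ring
  set g : ℕ → ℂ := fun n => e ((n : ℝ) ^ 2 / (2 * P)) with hgdef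
  have hper : ∀ n, g (n + P) = g n := by
    intro n
    simp only [hgdef]
    have : (((n + P : ℕ) : ℝ)) ^ 2 / (2 * P) = (n : ℝ) ^ 2 / (2 * P) + ((n + Q : ℕ) : ℝ) := by
      push_cast
      field_simp
      rw [hPQ]; ring
    rw [this, e_add, e_nat, mul_one]
  have h1 : ((∑ n ∈ range P, g n) * (starRingEnd ℂ) (∑ n ∈ range P, g n)) = P := by
    rw [map_sum, mul_sum]
    have h2 : ∀ k ∈ range P, (∑ n ∈ range P, g n) * (starRingEnd ℂ) (g k) =
        ∑ d ∈ range P, e ((d : ℝ) ^ 2 / (2 * P)) * e ((k : ℝ) * d / P) := by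
      intro k _
      rw [← shift_sum g P hper k, sum_mul]
      refine sum_congr rfl fun d _ => ?_
      simp only [hgdef]
      rw [conj_e, ← e_add, ← e_add]
      congr 1
      push_cast
      field_simp
      ring
    rw [sum_congr rfl h2, sum_comm]
    simp only [← mul_sum]
    rw [sum_eq_single 0]
    · simp [e_zero]
    · intro d hd hd0
      rw [geom_zero P d (Nat.pos_of_ne_zero hd0) (mem_range.mp hd), mul_zero]
    · intro h; exact absurd (mem_range.mpr hP) h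
  rw [Complex.mul_conj] at h1
  have h3 : Complex.normSq (∑ n ∈ range P, g n) = P := by exact_mod_cast h1
  rw [← Complex.normSq_eq_norm_sq]
  exact h3

/-- symmetric form -/
lemma gauss_sym (M : ℕ) (hM : 1 ≤ M) :
    ‖∑ n ∈ range (3 * M + 1), e ((n : ℝ) ^ 2 / (12 * M)) +
      ∑ n ∈ range (3 * M), e ((n : ℝ) ^ 2 / (12 * M)) - 1‖ ^ 2 = 6 * M := by
  have hM0 : (0 : ℝ) < M := by exact_mod_cast hM
  have h := gauss_norm (6 * M) (by omega) ⟨3 * M, by ring⟩
  have hg : ∀ n : ℕ, (n : ℝ) ^ 2 / (2 * ((6 * M : ℕ) : ℝ)) = (n : ℝ) ^ 2 / (12 * M) := by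
    intro n; push_cast; ring_nf
  simp only [hg] at h
  have e1 : ∑ n ∈ range (6 * M), e ((n : ℝ) ^ 2 / (12 * M)) =
      ∑ n ∈ range (3 * M + 1), e ((n : ℝ) ^ 2 / (12 * M)) + ∑ n ∈ range (3 * M), e ((n : ℝ) ^ 2 / (12 * M)) - 1 := by
    rw [← sum_range_add_sum_Ico _ (show 3 * M + 1 ≤ 6 * M by omega), add_sub_assoc]
    congr 1
    have h2 : ∑ n ∈ range (3 * M), e ((n : ℝ) ^ 2 / (12 * M)) =
        ∑ n ∈ range (3 * M - 1), e (((n + 1 : ℕ) : ℝ) ^ 2 / (12 * M)) + 1 := by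
      obtain ⟨K, hK⟩ : ∃ K, 3 * M = K + 1 := ⟨3 * M - 1, by omega⟩
      rw [hK, sum_range_succ']
      simp [e_zero]
    rw [h2, add_sub_cancel_right, sum_Ico_eq_sum_range, show 6 * M - (3 * M + 1) = 3 * M - 1 by omega,
      ← sum_range_reflect]
    refine sum_congr rfl fun n hn => ?_
    have hn' := mem_range.mp hn
    have h3 : ((3 * M + 1 + (3 * M - 1 - 1 - n) : ℕ) : ℝ) = 6 * M - (n + 1) := by
      have : 3 * M + 1 + (3 * M - 1 - 1 - n) + (n + 1) = 6 * M := by omega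
      have h4 : ((3 * M + 1 + (3 * M - 1 - 1 - n) + (n + 1) : ℕ) : ℝ) = ((6 * M : ℕ) : ℝ) := by rw [this]
      push_cast at h4 ⊢
      linarith
    rw [h3]
    have h5 : (6 * (M : ℝ) - (n + 1)) ^ 2 / (12 * M) + (n + 1 : ℕ) = ((n + 1 : ℕ) : ℝ) ^ 2 / (12 * M) + (3 * M : ℕ) := by
      push_cast
      field_simp
      ring
    have h6 : e ((6 * (M : ℝ) - (n + 1)) ^ 2 / (12 * M)) = e ((6 * (M : ℝ) - (n + 1)) ^ 2 / (12 * M) + (n + 1 : ℕ)) := by
      rw [e_add, e_nat, mul_one]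
    rw [h6, h5, e_add, e_nat, mul_one]
  rw [← e1, h]
  push_cast; ring

end Pool.Agent.Y937.EP
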