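import Mathlib
import Pool.Agent.Y937.EP.Gauss

set_option autoImplicit false

open Finset
open Pool.Agent.H469R2.NK (e norm_e e_add e_zero e_nat conj_e)

namespace Pool.Agent.Y937.EP

/-- `y = sqrt (M^2 + h/3)` -/
noncomputable def yy (M h : ℝ) : ℝ := Real.sqrt (M ^ 2 + h / 3)

/-- the local phase -/
noncomputable def ph (M h : ℝ) : ℝ := (yy M h - M) ^ 2 * (2 * yy M h + M)

lemma yy_sq {M h : ℝ} (H : 0 ≤ M ^ 2 + h / 3) : yy M h ^ 2 = M ^ 2 + h / 3 := Real.sq_sqrt H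

lemma yy_nonneg (M h : ℝ) : 0 ≤ yy M h := Real.sqrt_nonneg _

lemma yy_mono (M : ℝ) {h k : ℝ} (H : h ≤ k) : yy M h ≤ yy M k := by
  unfold yy
  apply Real.sqrt_le_sqrt
  linarith

lemma ph_zero {M : ℝ} (hM : 0 ≤ M) : ph M 0 = 0 := by
  unfold ph yy
  rw [zero_div, add_zero, Real.sqrt_sq hM, sub_self]
  ring

lemma ph_diff {M h : ℝ} (H : 0 ≤ M ^ 2 + h / 3) :
    yy M h - M ≤ ph M (h + 1) - ph M h ∧ ph M (h + 1) - ph M h ≤ yy M (h + 1) - M := by
  have h1 := yy_sq H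
  have h2 := yy_sq (M := M) (h := h + 1) (by linarith)
  have h3 := yy_nonneg M h
  have h4 := yy_nonneg M (h + 1)
  have e1 : ph M (h + 1) - ph M h = 2 * (yy M (h + 1) ^ 3 - yy M h ^ 3) -
      3 * M * (yy M (h + 1) ^ 2 - yy M h ^ 2) := by
    unfold ph; ring
  have e2 : yy M (h + 1) ^ 2 - yy M h ^ 2 = 1 / 3 := by rw [h1, h2]; ring
  rw [e1, e2]
  set a := yy M h
  set b := yy M (h + 1)
  have e3 : a = 3 * a * (b ^ 2 - a ^ 2) := by rw [e2]; ring
  have e4 : b = 3 * b * (b ^ 2 - a ^ 2) := by rw [e2]; ring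
  constructor
  · have : 0 ≤ (b - a) ^ 2 * (2 * b + a) := by positivity
    nlinarith
  · have : 0 ≤ (b - a) ^ 2 * (b + 2 * a) := by positivity
    nlinarith

lemma ph_taylor {M h : ℝ} (hM : 0 < M) (H : 0 ≤ M ^ 2 + h / 3) :
    ph M h - h ^ 2 / (12 * M) = -((yy M h - M) ^ 3 * (3 * yy M h + M) / (4 * M)) := by
  have h1 := yy_sq H
  have e1 : h = 3 * (yy M h ^ 2 - M ^ 2) := by rw [h1]; ring
  have e2 : h ^ 2 / (12 * M) = (3 * (yy M h ^ 2 - M ^ 2)) ^ 2 / (12 * M) := by rw [← e1]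
  rw [e2]
  unfold ph
  field_simp
  ring

/-- positive side -/
lemma block_pos (M : ℕ) (A : ℝ) (hA : 1 ≤ A) (hM : A ^ 2 ≤ M) :
    ‖∑ n ∈ range (3 * M + 1), e (ph M n) - Real.sqrt M * J A‖ ≤
      A ^ 2 + 2 + 7 * 1 * A ^ 4 / Real.sqrt M ^ 2 + 36 * Real.sqrt M / A := by
  have hM1 : (1 : ℝ) ≤ M := by nlinarith
  have hM0 : (0 : ℝ) < M := by linarith
  have hr2 : Real.sqrt M ^ 2 = M := Real.sq_sqrt hM0.le
  have hrA : A ≤ Real.sqrt M := Real.le_sqrt_of_sq_le hM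
  have hr6 : Real.sqrt M ^ 3 * Real.sqrt M ^ 3 = (M : ℝ) ^ 3 := by
    calc Real.sqrt M ^ 3 * Real.sqrt M ^ 3 = (Real.sqrt M ^ 2) ^ 3 := by ring
      _ = (M : ℝ) ^ 3 := by rw [hr2]
  have hr1 : 1 ≤ Real.sqrt M := by linarith
  have hdom : ∀ n : ℕ, (0 : ℝ) ≤ (M : ℝ) ^ 2 + (n : ℝ) / 3 := fun n => by positivity
  refine block (Real.sqrt M) A hr1 hA hrA (3 * M + 1) (fun n => ph M n) 1 (by norm_num) ?_ ?_ ?_ ?_ ?_
  · intro n hn
    have hn0 : (0 : ℝ) ≤ n := Nat.cast_nonneg n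
    have hnM : (n : ℝ) ≤ M := by
      calc (n : ℝ) ≤ A * Real.sqrt M := hn
        _ ≤ Real.sqrt M * Real.sqrt M := by gcongr
        _ = M := by rw [← sq, hr2]
    have h1 : 0 ≤ yy M n - M := by
      have : (M : ℝ) ≤ yy M n := Real.le_sqrt_of_sq_le (by linarith [div_nonneg hn0 (by norm_num : (0:ℝ) ≤ 3)])
      linarith
    have h2 : yy M n - M ≤ (n : ℝ) / (6 * M) := by
      have : yy M n ≤ M + (n : ℝ) / (6 * M) := by
        apply Real.sqrt_le_iff.mpr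
        refine ⟨by positivity, ?_⟩
        have : (M + (n : ℝ) / (6 * M)) ^ 2 = M ^ 2 + n / 3 + ((n : ℝ) / (6 * M)) ^ 2 := by
          field_simp; ring
        rw [this]
        have := sq_nonneg ((n : ℝ) / (6 * M))
        linarith
      linarith
    have h3 : (n : ℝ) / (6 * M) ≤ 1 / 6 := by
      rw [div_le_div_iff₀ (by positivity) (by norm_num)]; linarith
    rw [hr2, ph_taylor hM0 (hdom n), abs_neg, abs_of_nonneg (by
      have := yy_nonneg M n
      positivity)]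
    have h4 : (3 * yy M n + M) / (4 * M) ≤ 2 := by
      rw [div_le_iff₀ (by positivity)]
      linarith
    have h4' : 0 ≤ (3 * yy M n + M) / (4 * M) := by
      have := yy_nonneg M n
      positivity
    calc (yy M n - M) ^ 3 * (3 * yy M n + M) / (4 * M) = (yy M n - M) ^ 3 * ((3 * yy M n + M) / (4 * M)) := by ring
      _ ≤ ((n : ℝ) / (6 * M)) ^ 3 * 2 := by gcongr
      _ = (1 / 108) * ((n : ℝ) ^ 3 / (Real.sqrt M ^ 3 * Real.sqrt M ^ 3)) := by
          rw [hr6, div_pow, mul_pow]; ring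
      _ ≤ 1 * ((n : ℝ) ^ 3 / (Real.sqrt M ^ 3 * Real.sqrt M ^ 3)) := by
          gcongr; norm_num
      _ = _ := by field_simp
  · have : A * Real.sqrt M ≤ M := by
      calc A * Real.sqrt M ≤ Real.sqrt M * Real.sqrt M := by gcongr
        _ = M := by rw [← sq, hr2]
    push_cast; linarith
  · intro n hn
    have hn' : n ≤ 3 * M := by omega
    have hn2 : (n : ℝ) ≤ 3 * M := by exact_mod_cast hn'
    have hn0 : (0 : ℝ) ≤ n := Nat.cast_nonneg n
    have h := (ph_diff (hdom n)).1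
    rw [hr2]
    push_cast
    refine le_trans ?_ h
    rw [le_sub_iff_add_le]
    apply Real.le_sqrt_of_sq_le
    have e1 : ((n : ℝ) / (9 * M) + M) ^ 2 = M ^ 2 + 2 / 9 * n + (n / (9 * M)) * (n / (9 * M)) := by
      field_simp; ring
    rw [e1]
    have e2 : (n : ℝ) / (9 * M) ≤ 1 := by
      rw [div_le_one (by positivity)]; linarith
    have e3 : (n / (9 * M)) * (n / (9 * M)) ≤ (n : ℝ) / 9 * 1 := by
      apply mul_le_mul _ e2 (by positivity) (by positivity)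
      gcongr; linarith
    linarith
  · intro n hn
    have hn' : n ≤ 3 * M := by omega
    have hn2 : (n : ℝ) ≤ 3 * M := by exact_mod_cast hn'
    have h := (ph_diff (hdom n)).2
    push_cast
    refine h.trans ?_
    rw [sub_le_iff_le_add]
    apply Real.sqrt_le_iff.mpr
    refine ⟨by positivity, ?_⟩
    nlinarith
  · intro n hn
    have h := (ph_diff (hdom n)).2
    have h2 := (ph_diff (hdom (n + 1))).1
    push_cast at h h2 ⊢
    have e1 : (n : ℝ) + 1 + 1 = n + 2 := by ring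
    rw [e1] at h2
    linarith

/-- negative side -/
lemma block_neg (M : ℕ) (A : ℝ) (hA : 2 ≤ A) (hM : A ^ 2 ≤ M) :
    ‖∑ n ∈ range (3 * M), e (ph M (-n)) - Real.sqrt M * J A‖ ≤
      A ^ 2 + 2 + 7 * 1 * A ^ 4 / Real.sqrt M ^ 2 + 36 * Real.sqrt M / A := by
  have hM1 : (2 : ℝ) ≤ M := by nlinarith
  have hM0 : (0 : ℝ) < M := by linarith
  have hr2 : Real.sqrt M ^ 2 = M := Real.sq_sqrt hM0.le
  have hrA : A ≤ Real.sqrt M := Real.le_sqrt_of_sq_le hM
  have hr6 : Real.sqrt M ^ 3 * Real.sqrt M ^ 3 = (M : ℝ) ^ 3 := by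
    calc Real.sqrt M ^ 3 * Real.sqrt M ^ 3 = (Real.sqrt M ^ 2) ^ 3 := by ring
      _ = (M : ℝ) ^ 3 := by rw [hr2]
  have hr1 : 1 ≤ Real.sqrt M := by linarith
  have hdom : ∀ h : ℝ, -(3 * (M : ℝ)) ≤ h → (0 : ℝ) ≤ (M : ℝ) ^ 2 + h / 3 := fun h hh => by nlinarith
  refine block (Real.sqrt M) A hr1 (by linarith) hrA (3 * M) (fun n => ph M (-n)) 1 (by norm_num) ?_ ?_ ?_ ?_ ?_
  · intro n hn
    have hn0 : (0 : ℝ) ≤ n := Nat.cast_nonneg n
    have hnM : (n : ℝ) ≤ M := by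
      calc (n : ℝ) ≤ A * Real.sqrt M := hn
        _ ≤ Real.sqrt M * Real.sqrt M := by gcongr
        _ = M := by rw [← sq, hr2]
    have hd := hdom (-n) (by linarith)
    have hy0 := yy_nonneg M (-n)
    have h1 : 0 ≤ M - yy M (-n) := by
      have : yy M (-n) ≤ M := by
        apply Real.sqrt_le_iff.mpr
        exact ⟨hM0.le, by linarith [div_nonneg hn0 (by norm_num : (0:ℝ) ≤ 3), (by ring : (-(n:ℝ)) / 3 = -(n / 3))]⟩
      linarith
    have h2 : M - yy M (-n) ≤ (n : ℝ) / (3 * M) := by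
      have h3 := yy_sq hd
      have h4 : (M - yy M (-n)) * (M + yy M (-n)) = n / 3 := by
        have : (M - yy M (-n)) * (M + yy M (-n)) = M ^ 2 - yy M (-n) ^ 2 := by ring
        rw [this, h3]; ring
      rw [le_div_iff₀ (by positivity)]
      have h5 : (M - yy M (-n)) * (3 * M) ≤ 3 * ((M - yy M (-n)) * (M + yy M (-n))) := by
        have := mul_nonneg h1 hy0
        nlinarith
      rw [h4] at h5
      linarith
    have e0 : (-(n : ℝ)) ^ 2 = (n : ℝ) ^ 2 := by ring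
    rw [hr2, ← e0, ph_taylor hM0 hd, abs_neg]
    have e1 : (yy M (-n) - M) ^ 3 * (3 * yy M (-n) + M) / (4 * M) = -((M - yy M (-n)) ^ 3 * ((3 * yy M (-n) + M) / (4 * M))) := by ring
    have h4 : (3 * yy M (-n) + M) / (4 * M) ≤ 1 := by
      rw [div_le_iff₀ (by positivity)]
      linarith
    have h4' : 0 ≤ (3 * yy M (-n) + M) / (4 * M) := by positivity
    rw [e1, abs_neg, abs_of_nonneg (by positivity)]
    calc (M - yy M (-n)) ^ 3 * ((3 * yy M (-n) + M) / (4 * M)) ≤ ((n : ℝ) / (3 * M)) ^ 3 * 1 := by gcongr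
      _ = (1 / 27) * ((n : ℝ) ^ 3 / (Real.sqrt M ^ 3 * Real.sqrt M ^ 3)) := by
          rw [hr6, div_pow, mul_pow]; ring
      _ ≤ 1 * ((n : ℝ) ^ 3 / (Real.sqrt M ^ 3 * Real.sqrt M ^ 3)) := by
          gcongr; norm_num
      _ = _ := by field_simp
  · have : A * Real.sqrt M ≤ M := by
      calc A * Real.sqrt M ≤ Real.sqrt M * Real.sqrt M := by gcongr
        _ = M := by rw [← sq, hr2]
    push_cast; linarith
  · intro n hn
    have hn' : n + 1 ≤ 3 * M := by omega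
    have hn2 : (n : ℝ) + 1 ≤ 3 * M := by exact_mod_cast hn'
    have hn0 : (0 : ℝ) ≤ n := Nat.cast_nonneg n
    have h := (ph_diff (hdom (-(n + 1)) (by linarith))).2
    have e0 : -((n : ℝ) + 1) + 1 = -n := by ring
    rw [e0] at h
    rw [hr2]
    push_cast
    have h2 : yy M (-n) ≤ M - (n : ℝ) / (9 * M) := by
      have e2 : (n : ℝ) / (9 * M) ≤ 1 := by
        rw [div_le_one (by positivity)]; linarith
      apply Real.sqrt_le_iff.mpr
      refine ⟨by linarith, ?_⟩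
      have e1 : (M - (n : ℝ) / (9 * M)) ^ 2 = M ^ 2 - 2 / 9 * n + (n / (9 * M)) ^ 2 := by
        field_simp; ring
      rw [e1]
      have := sq_nonneg ((n : ℝ) / (9 * M))
      linarith
    linarith
  · intro n hn
    have hn' : n + 1 ≤ 3 * M := by omega
    have hn2 : (n : ℝ) + 1 ≤ 3 * M := by exact_mod_cast hn'
    have h := (ph_diff (hdom (-(n + 1)) (by linarith))).1
    have e0 : -((n : ℝ) + 1) + 1 = -n := by ring
    rw [e0] at h
    push_cast
    have h2 : (M : ℝ) - 2 / 3 ≤ yy M (-(n + 1)) := by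
      apply Real.le_sqrt_of_sq_le
      nlinarith
    linarith
  · intro n hn
    have hn' : n + 2 ≤ 3 * M := by omega
    have hn2 : (n : ℝ) + 2 ≤ 3 * M := by exact_mod_cast hn'
    have h := (ph_diff (hdom (-(n + 1)) (by linarith))).1
    have h2 := (ph_diff (hdom (-(n + 2)) (by linarith))).2
    have e0 : -((n : ℝ) + 1) + 1 = -n := by ring
    have e1 : -((n : ℝ) + 2) + 1 = -(n + 1) := by ring
    rw [e0] at h
    rw [e1] at h2
    push_cast at h h2 ⊢
    linarith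

/-- pure quadratic phase -/
lemma block_quad (M : ℕ) (A : ℝ) (hA : 1 ≤ A) (hM : A ^ 2 ≤ M) (N : ℕ) (hN : M ≤ N) (hN2 : N ≤ 3 * M + 1) :
    ‖∑ n ∈ range N, e ((n : ℝ) ^ 2 / (12 * M)) - Real.sqrt M * J A‖ ≤
      A ^ 2 + 2 + 7 * 1 * A ^ 4 / Real.sqrt M ^ 2 + 36 * Real.sqrt M / A := by
  have hM1 : (1 : ℝ) ≤ M := by nlinarith
  have hM0 : (0 : ℝ) < M := by linarith
  have hr2 : Real.sqrt M ^ 2 = M := Real.sq_sqrt hM0.le
  have hrA : A ≤ Real.sqrt M := Real.le_sqrt_of_sq_le hM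
  have hr1 : 1 ≤ Real.sqrt M := by linarith
  refine block (Real.sqrt M) A hr1 hA hrA N (fun n => (n : ℝ) ^ 2 / (12 * M)) 1 (by norm_num) ?_ ?_ ?_ ?_ ?_
  · intro n hn
    rw [hr2, sub_self, abs_zero]
    positivity
  · have : A * Real.sqrt M ≤ M := by
      calc A * Real.sqrt M ≤ Real.sqrt M * Real.sqrt M := by gcongr
        _ = M := by rw [← sq, hr2]
    have h2 : (M : ℝ) ≤ N := by exact_mod_cast hN
    linarith
  · intro n hn
    have hn0 : (0 : ℝ) ≤ n := Nat.cast_nonneg n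
    rw [hr2]
    push_cast
    have e1 : ((n : ℝ) + 1) ^ 2 / (12 * M) - n ^ 2 / (12 * M) = (2 * n + 1) / (12 * M) := by ring
    rw [e1, div_le_div_iff₀ (by positivity) (by positivity)]
    nlinarith
  · intro n hn
    have hn' : n ≤ 3 * M := by omega
    have hn2 : (n : ℝ) ≤ 3 * M := by exact_mod_cast hn'
    push_cast
    have e1 : ((n : ℝ) + 1) ^ 2 / (12 * M) - n ^ 2 / (12 * M) = (2 * n + 1) / (12 * M) := by ring
    rw [e1, div_le_div_iff₀ (by positivity) (by norm_num)]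
    linarith
  · intro n hn
    push_cast
    have e1 : ((n : ℝ) + 1) ^ 2 / (12 * M) - n ^ 2 / (12 * M) = (2 * n + 1) / (12 * M) := by ring
    have e2 : ((n : ℝ) + 2) ^ 2 / (12 * M) - (n + 1) ^ 2 / (12 * M) = (2 * n + 3) / (12 * M) := by ring
    rw [e1, e2]
    gcongr
    norm_num

/-- The Fresnel integral is bounded away from zero. -/
lemma J_lower : (8 : ℝ) / 10 ≤ ‖J 100‖ := by
  set M : ℕ := 10 ^ 14 with hM
  have hMr : Real.sqrt M = 10 ^ 7 := by
    rw [hM]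
    rw [show ((10 ^ 14 : ℕ) : ℝ) = (10 ^ 7) ^ 2 by norm_num]
    exact Real.sqrt_sq (by norm_num)
  have h1 := block_quad M 100 (by norm_num) (by rw [hM]; norm_num) (3 * M + 1) (by omega) (by omega)
  have h2 := block_quad M 100 (by norm_num) (by rw [hM]; norm_num) (3 * M) (by omega) (by omega)
  have h3 := gauss_sym M (by omega)
  rw [hMr] at h1 h2
  set a := ∑ n ∈ range (3 * M + 1), e ((n : ℝ) ^ 2 / (12 * M))
  set b := ∑ n ∈ range (3 * M), e ((n : ℝ) ^ 2 / (12 * M))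
  set w : ℂ := ((10 ^ 7 : ℝ) : ℂ) * J 100 with hw
  have hw' : ‖w‖ = 10 ^ 7 * ‖J 100‖ := by
    rw [hw, norm_mul, Complex.norm_real, Real.norm_eq_abs, abs_of_pos (by norm_num)]
  have h4 : ‖a + b - 1‖ ≤ ‖a - w‖ + ‖b - w‖ + 2 * ‖w‖ + 1 := by
    have e1 : a + b - 1 = (a - w) + (b - w) + (2 : ℂ) * w - 1 := by ring
    rw [e1]
    refine (norm_sub_le _ _).trans ?_
    rw [norm_one]
    refine add_le_add ((norm_add_le _ _).trans ?_) le_rfl
    refine add_le_add (norm_add_le _ _) ?_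
    rw [norm_mul, Complex.norm_ofNat]
  have h5 : (24 : ℝ) / 10 * 10 ^ 7 ≤ ‖a + b - 1‖ := by
    apply le_of_sq_le_sq _ (norm_nonneg _)
    rw [h3, hM]
    norm_num
  have e5 : (100 : ℝ) ^ 2 + 2 + 7 * 1 * 100 ^ 4 / (10 ^ 7) ^ 2 + 36 * 10 ^ 7 / 100 ≤ 3620000 := by norm_num
  rw [hw'] at h4
  have h1' := h1.trans e5
  have h2' := h2.trans e5
  have h6 := h5.trans h4
  generalize ‖a - w‖ = p at *
  generalize ‖b - w‖ = q at *
  generalize ‖J 100‖ = z at *
  norm_num at h6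
  linarith

end Pool.Agent.Y937.EP
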