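import Mathlib
import Pool.Agent.Y937.EP.Phase

set_option autoImplicit false

open Finset
open Pool.Agent.H469R2.NK (e norm_e e_add e_zero e_nat conj_e)

namespace Pool.Agent.Y937.EP

/-- the phase `2 (x/3)^{3/2}` -/
noncomputable def kap : ℝ := 2 / 3 ^ (3 / 2 : ℝ)

noncomputable def fph (x : ℝ) : ℝ := kap * x ^ (3 / 2 : ℝ)

lemma kap_pos : 0 < kap := by unfold kap; positivity

lemma fph_eq {x : ℝ} (hx : 0 ≤ x) : fph x = 2 * Real.sqrt (x / 3) ^ 3 := by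
  unfold fph kap
  have h1 : Real.sqrt (x / 3) ^ 3 = (x / 3) ^ (3 / 2 : ℝ) := by
    rw [Real.sqrt_eq_rpow, ← Real.rpow_natCast, ← Real.rpow_mul (by positivity)]
    norm_num
  rw [h1, Real.div_rpow hx (by norm_num)]
  ring

lemma fph_local (M : ℕ) (h : ℝ) (H : 0 ≤ (M : ℝ) ^ 2 + h / 3) :
    fph (3 * (M : ℝ) ^ 2 + h) = ph M h + M * (2 * (M : ℝ) ^ 2 + h) := by
  rw [fph_eq (by linarith)]
  have h1 : Real.sqrt ((3 * (M : ℝ) ^ 2 + h) / 3) = yy M h := by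
    unfold yy
    congr 1; ring
  rw [h1]
  unfold ph
  have h2 := yy_sq H
  have e1 : (yy M h - M) ^ 2 * (2 * yy M h + M) = 2 * yy M h ^ 3 - 3 * M * yy M h ^ 2 + M ^ 3 := by ring
  rw [e1, h2]
  ring

lemma e_fph_pos (M h : ℕ) : e (fph ((3 * M ^ 2 + h : ℕ) : ℝ)) = e (ph M h) := by
  have h1 := fph_local M h (by positivity)
  push_cast
  rw [h1]
  have : (M : ℝ) * (2 * (M : ℝ) ^ 2 + h) = ((M * (2 * M ^ 2 + h) : ℕ) : ℝ) := by push_cast; ring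
  rw [this, e_add, e_nat, mul_one]

lemma e_fph_neg (M h : ℕ) (hh : h ≤ 2 * M ^ 2) : e (fph ((3 * M ^ 2 - h : ℕ) : ℝ)) = e (ph M (-h)) := by
  have hh' : (h : ℝ) ≤ 2 * (M : ℝ) ^ 2 := by exact_mod_cast hh
  have h1 := fph_local M (-h) (by nlinarith [sq_nonneg (M : ℝ)])
  have e1 : ((3 * M ^ 2 - h : ℕ) : ℝ) = 3 * (M : ℝ) ^ 2 + -h := by
    rw [Nat.cast_sub (by omega)]; push_cast; ring
  rw [e1, h1]
  have : (M : ℝ) * (2 * (M : ℝ) ^ 2 + -h) = ((M * (2 * M ^ 2 - h) : ℕ) : ℝ) := by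
    rw [Nat.cast_mul, Nat.cast_sub (by omega)]; push_cast; ring
  rw [this, e_add, e_nat, mul_one]

/-- the block sum in terms of the local phase -/
lemma T_eq (M : ℕ) (hM : 2 ≤ M) :
    ∑ n ∈ Ico (3 * M ^ 2 - 3 * M + 1) (3 * M ^ 2 + 3 * M + 1), e (fph ((n : ℕ) : ℝ)) =
      ∑ n ∈ range (3 * M + 1), e (ph M n) + ∑ n ∈ range (3 * M), e (ph M (-n)) - 1 := by
  have h3M : 3 * M ≤ 3 * M ^ 2 := by nlinarith
  have h2M : 3 * M ≤ 2 * M ^ 2 := by nlinarith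
  rw [← sum_Ico_consecutive _ (show 3 * M ^ 2 - 3 * M + 1 ≤ 3 * M ^ 2 by omega)
    (show 3 * M ^ 2 ≤ 3 * M ^ 2 + 3 * M + 1 by omega)]
  have e1 : ∑ n ∈ Ico (3 * M ^ 2) (3 * M ^ 2 + 3 * M + 1), e (fph ((n : ℕ) : ℝ)) = ∑ n ∈ range (3 * M + 1), e (ph M n) := by
    rw [sum_Ico_eq_sum_range, show 3 * M ^ 2 + 3 * M + 1 - 3 * M ^ 2 = 3 * M + 1 by omega]
    exact sum_congr rfl fun n _ => e_fph_pos M n
  have e2 : ∑ n ∈ Ico (3 * M ^ 2 - 3 * M + 1) (3 * M ^ 2), e (fph ((n : ℕ) : ℝ)) =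
      ∑ n ∈ range (3 * M), e (ph M (-n)) - 1 := by
    rw [sum_Ico_eq_sum_range, show 3 * M ^ 2 - (3 * M ^ 2 - 3 * M + 1) = 3 * M - 1 by omega, ← sum_range_reflect]
    have h2 : ∑ n ∈ range (3 * M), e (ph M (-n)) =
        ∑ n ∈ range (3 * M - 1), e (ph M (-((n + 1 : ℕ) : ℝ))) + 1 := by
      obtain ⟨K, hK⟩ : ∃ K, 3 * M = K + 1 := ⟨3 * M - 1, by omega⟩
      rw [hK, sum_range_succ']
      simp [e_zero, ph_zero]
    rw [h2, add_sub_cancel_right]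
    refine sum_congr rfl fun n hn => ?_
    have hn' := mem_range.mp hn
    rw [← e_fph_neg M (n + 1) (by omega)]
    congr 3
    omega
  rw [e1, e2]
  ring

lemma T_bound (M : ℕ) (hM : 10 ^ 12 ≤ M) :
    ‖∑ n ∈ Ico (3 * M ^ 2 - 3 * M + 1) (3 * M ^ 2 + 3 * M + 1), e (fph ((n : ℕ) : ℝ)) -
      2 * (Real.sqrt M * J 100)‖ ≤ 75 / 100 * Real.sqrt M := by
  have hMr : (10 : ℝ) ^ 12 ≤ M := by exact_mod_cast hM
  have hs : (10 : ℝ) ^ 6 ≤ Real.sqrt M := by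
    apply Real.le_sqrt_of_sq_le
    norm_num at hMr ⊢
    exact hMr
  rw [T_eq M (by omega)]
  have h1 := block_pos M 100 (by norm_num) (by norm_num at hMr ⊢; linarith)
  have h2 := block_neg M 100 (by norm_num) (by norm_num at hMr ⊢; linarith)
  have hsq : Real.sqrt M ^ 2 = M := Real.sq_sqrt (by positivity)
  have h3 : (100 : ℝ) ^ 2 + 2 + 7 * 1 * 100 ^ 4 / Real.sqrt M ^ 2 + 36 * Real.sqrt M / 100 ≤
      10003 + 36 / 100 * Real.sqrt M := by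
    rw [hsq]
    have : (7 : ℝ) * 1 * 100 ^ 4 / M ≤ 1 := by
      rw [div_le_one (by linarith [show (0:ℝ) < 10 ^ 12 by norm_num])]
      norm_num at hMr ⊢; linarith
    linarith
  set a := ∑ n ∈ range (3 * M + 1), e (ph M n)
  set b := ∑ n ∈ range (3 * M), e (ph M (-n))
  set w : ℂ := (Real.sqrt M : ℂ) * J 100
  have e1 : a + b - 1 - 2 * w = (a - w) + (b - w) - 1 := by ring
  rw [e1]
  refine (norm_sub_le _ _).trans ?_
  rw [norm_one]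
  have h4 := norm_add_le (a - w) (b - w)
  have h1' := h1.trans h3
  have h2' := h2.trans h3
  norm_num at hs
  linarith

/-- union of the blocks -/
lemma blocks (a b : ℕ) (hab : a ≤ b) :
    ∑ M ∈ Ico (a + 1) (b + 1), ∑ n ∈ Ico (3 * M ^ 2 - 3 * M + 1) (3 * M ^ 2 + 3 * M + 1), e (fph ((n : ℕ) : ℝ)) =
      ∑ n ∈ Ico (3 * a ^ 2 + 3 * a + 1) (3 * b ^ 2 + 3 * b + 1), e (fph ((n : ℕ) : ℝ)) := by
  induction b, hab using Nat.le_induction with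
  | base => simp
  | succ b hab ih =>
    rw [sum_Ico_succ_top (by omega), ih]
    have h1 : 3 * (b + 1) ^ 2 - 3 * (b + 1) + 1 = 3 * b ^ 2 + 3 * b + 1 := by
      have : 3 * (b + 1) ^ 2 = 3 * b ^ 2 + 6 * b + 3 := by ring
      omega
    rw [h1, sum_Ico_consecutive]
    · have : a ^ 2 ≤ b ^ 2 := Nat.pow_le_pow_left hab 2
      omega
    · have : 3 * (b + 1) ^ 2 = 3 * b ^ 2 + 6 * b + 3 := by ring
      omega

lemma big_sum (r : ℕ) (hr : 10 ^ 12 ≤ r) :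
    (r : ℝ) * Real.sqrt r ≤
      ‖∑ n ∈ Ico (3 * (4 * r) ^ 2 + 3 * (4 * r) + 1) (3 * (5 * r) ^ 2 + 3 * (5 * r) + 1), e (fph ((n : ℕ) : ℝ))‖ := by
  rw [← blocks (4 * r) (5 * r) (by omega)]
  set T : ℕ → ℂ := fun M => ∑ n ∈ Ico (3 * M ^ 2 - 3 * M + 1) (3 * M ^ 2 + 3 * M + 1), e (fph ((n : ℕ) : ℝ)) with hT
  change _ ≤ ‖∑ M ∈ Ico (4 * r + 1) (5 * r + 1), T M‖
  set S : ℝ := ∑ M ∈ Ico (4 * r + 1) (5 * r + 1), Real.sqrt M with hS
  have h1 : ‖∑ M ∈ Ico (4 * r + 1) (5 * r + 1), T M - 2 * ((S : ℝ) * J 100)‖ ≤ 75 / 100 * S := by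
    have e1 : (2 : ℂ) * ((S : ℝ) * J 100) = ∑ M ∈ Ico (4 * r + 1) (5 * r + 1), 2 * ((Real.sqrt M : ℝ) * J 100) := by
      rw [hS, ← mul_sum, ← sum_mul]
      push_cast
      ring
    rw [e1, ← sum_sub_distrib, hS, mul_sum]
    refine (norm_sum_le _ _).trans (sum_le_sum fun M hM => ?_)
    have := (mem_Ico.mp hM).1
    exact T_bound M (by omega)
  have hS0 : 0 ≤ S := sum_nonneg fun _ _ => Real.sqrt_nonneg _
  have h2 : ‖(2 : ℂ) * ((S : ℝ) * J 100)‖ = 2 * (S * ‖J 100‖) := by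
    rw [norm_mul, norm_mul, Complex.norm_real, Real.norm_eq_abs, abs_of_nonneg hS0, Complex.norm_ofNat]
  have h3 := J_lower
  have h4 : (16 : ℝ) / 10 * S ≤ ‖(2 : ℂ) * ((S : ℝ) * J 100)‖ := by
    rw [h2]
    nlinarith
  have h5 : ‖(2 : ℂ) * ((S : ℝ) * J 100)‖ ≤ ‖∑ M ∈ Ico (4 * r + 1) (5 * r + 1), T M‖ + 75 / 100 * S := by
    have := norm_sub_norm_le ((2 : ℂ) * ((S : ℝ) * J 100)) (∑ M ∈ Ico (4 * r + 1) (5 * r + 1), T M)
    rw [norm_sub_rev] at this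
    linarith
  have h6 : (r : ℝ) * (2 * Real.sqrt r) ≤ S := by
    rw [hS]
    have : ∑ M ∈ Ico (4 * r + 1) (5 * r + 1), (2 * Real.sqrt r) ≤ ∑ M ∈ Ico (4 * r + 1) (5 * r + 1), Real.sqrt M := by
      apply sum_le_sum
      intro M hM
      have hM' : 4 * r ≤ M := by have := (mem_Ico.mp hM).1; omega
      have hM2 : (4 : ℝ) * r ≤ M := by exact_mod_cast hM'
      apply Real.le_sqrt_of_sq_le
      rw [mul_pow, Real.sq_sqrt (by positivity)]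
      linarith
    rw [sum_const, Nat.card_Ico, nsmul_eq_mul] at this
    have e2 : 5 * r + 1 - (4 * r + 1) = r := by omega
    rw [e2] at this
    exact this
  have h7 : 0 ≤ (r : ℝ) * Real.sqrt r := by positivity
  nlinarith

/-- derivatives of the phase -/
lemma iter_deriv_fph (j : ℕ) (x : ℝ) :
    iteratedDeriv j fph x = kap * ((descPochhammer ℝ j).eval (3 / 2 : ℝ) * x ^ ((3 / 2 : ℝ) - j)) := by
  rw [iteratedDeriv_eq_iterate]
  have : ∀ j : ℕ, deriv^[j] fph = fun x => kap * (deriv^[j] (fun x : ℝ => x ^ (3 / 2 : ℝ)) x) := by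
    intro j
    induction j with
    | zero => rfl
    | succ j ih =>
      rw [Function.iterate_succ', Function.comp_apply, ih]
      ext y
      rw [deriv_const_mul_field]
      rfl
  rw [this j]
  simp only
  rw [Real.iter_deriv_rpow_const]

lemma desc_ne (j : ℕ) : (descPochhammer ℝ j).eval (3 / 2 : ℝ) ≠ 0 := by
  rw [descPochhammer_eval_eq_prod_range]
  rw [prod_ne_zero_iff]
  intro i _ h
  have h1 : (3 : ℝ) = 2 * i := by linarith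
  have h2 : (3 : ℕ) = 2 * i := by exact_mod_cast h1
  omega

lemma rpow_bounds {u : ℝ} (h1 : 1 ≤ u) (h2 : u ≤ 2) (p : ℝ) :
    (2 : ℝ) ^ (-|p|) ≤ u ^ p ∧ u ^ p ≤ (2 : ℝ) ^ |p| := by
  rcases le_total 0 p with hp | hp
  · rw [abs_of_nonneg hp]
    constructor
    · calc (2 : ℝ) ^ (-p) ≤ 1 := Real.rpow_le_one_of_one_le_of_nonpos (by norm_num) (by linarith)
        _ ≤ u ^ p := Real.one_le_rpow h1 hp
    · exact Real.rpow_le_rpow (by linarith) h2 hp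
  · rw [abs_of_nonpos hp, neg_neg]
    constructor
    · exact Real.rpow_le_rpow_of_nonpos (by linarith) h2 hp
    · calc u ^ p ≤ 1 := Real.rpow_le_one_of_one_le_of_nonpos h1 hp
        _ ≤ 2 ^ (-p) := Real.one_le_rpow (by norm_num) (by linarith)

noncomputable def cc (j : ℕ) : ℝ := kap * |(descPochhammer ℝ j).eval (3 / 2 : ℝ)| * (2 : ℝ) ^ (-|(3 / 2 : ℝ) - j|)
noncomputable def CC (j : ℕ) : ℝ := kap * |(descPochhammer ℝ j).eval (3 / 2 : ℝ)| * (2 : ℝ) ^ |(3 / 2 : ℝ) - j|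

lemma cc_pos (j : ℕ) : 0 < cc j := by
  have := abs_pos.mpr (desc_ne j)
  have := kap_pos
  unfold cc
  positivity

lemma CC_pos (j : ℕ) : 0 < CC j := by
  have := abs_pos.mpr (desc_ne j)
  have := kap_pos
  unfold CC
  positivity

lemma contDiffOn_fph {N : ℝ} (hN : 2 ≤ N) : ContDiffOn ℝ (⊤ : ℕ∞) fph (Set.Icc N (2 * N)) := by
  intro x hx
  apply ContDiffAt.contDiffWithinAt
  unfold fph
  apply ContDiffAt.mul contDiffAt_const
  exact Real.contDiffAt_rpow_const_of_ne (by linarith [hx.1])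

lemma deriv_bounds {N : ℝ} (hN : 2 ≤ N) (j : ℕ) (x : ℝ) (hx : x ∈ Set.Icc N (2 * N)) :
    cc j * N ^ (3 / 2 : ℝ) / N ^ j ≤ |iteratedDerivWithin j fph (Set.Icc N (2 * N)) x| ∧
      |iteratedDerivWithin j fph (Set.Icc N (2 * N)) x| ≤ CC j * N ^ (3 / 2 : ℝ) / N ^ j := by
  have hN0 : 0 < N := by linarith
  have hx0 : 0 < x := by linarith [hx.1]
  have h1 : iteratedDerivWithin j fph (Set.Icc N (2 * N)) x = iteratedDeriv j fph x := by
    apply iteratedDerivWithin_eq_iteratedDeriv (uniqueDiffOn_Icc (by linarith)) _ hx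
    unfold fph
    apply ContDiffAt.mul contDiffAt_const
    exact Real.contDiffAt_rpow_const_of_ne hx0.ne'
  rw [h1, iter_deriv_fph, abs_mul, abs_mul, abs_of_pos kap_pos, abs_of_pos (Real.rpow_pos_of_pos hx0 _)]
  have h2 : x ^ ((3 / 2 : ℝ) - j) = N ^ (3 / 2 : ℝ) / N ^ j * (x / N) ^ ((3 / 2 : ℝ) - j) := by
    have : x = N * (x / N) := by field_simp
    conv_lhs => rw [this]
    rw [Real.mul_rpow hN0.le (by positivity), Real.rpow_sub hN0, Real.rpow_natCast]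
  rw [h2]
  obtain ⟨h3, h4⟩ := rpow_bounds (u := x / N) (by rw [le_div_iff₀ hN0]; linarith [hx.1])
    (by rw [div_le_iff₀ hN0]; linarith [hx.2]) ((3 / 2 : ℝ) - j)
  have hk := kap_pos
  constructor
  · calc cc j * N ^ (3 / 2 : ℝ) / N ^ j = kap * (|(descPochhammer ℝ j).eval (3 / 2 : ℝ)| *
          (N ^ (3 / 2 : ℝ) / N ^ j * (2 : ℝ) ^ (-|(3 / 2 : ℝ) - j|))) := by unfold cc; ring
      _ ≤ _ := by gcongr
  · calc _ ≤ kap * (|(descPochhammer ℝ j).eval (3 / 2 : ℝ)| *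
          (N ^ (3 / 2 : ℝ) / N ^ j * (2 : ℝ) ^ |(3 / 2 : ℝ) - j|)) := by gcongr
      _ = _ := by unfold CC; ring

theorem main :
    ¬ (∀ ε : ℝ, 0 < ε → ∀ c C : ℕ → ℝ, (∀ j, 0 < c j) → (∀ j, 0 < C j) →
      ∃ K : ℝ, ∀ N N' F : ℝ, ∀ f : ℝ → ℝ,
        2 ≤ N → N ≤ N' → N' ≤ 2 * N → N ≤ F →
        ContDiffOn ℝ (⊤ : ℕ∞) f (Set.Icc N (2 * N)) →
        (∀ j : ℕ, ∀ x ∈ Set.Icc N (2 * N),
            c j * F / N ^ j ≤ |iteratedDerivWithin j f (Set.Icc N (2 * N)) x| ∧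
            |iteratedDerivWithin j f (Set.Icc N (2 * N)) x| ≤ C j * F / N ^ j) →
        ‖∑ n ∈ Finset.Icc ⌈N⌉₊ ⌊N'⌋₊,
            Complex.exp (2 * (Real.pi : ℂ) * Complex.I * ((f (n : ℝ) : ℝ) : ℂ))‖
          ≤ K * N ^ (1 / 2 : ℝ) * F ^ ε) := by
  intro hall
  obtain ⟨K, hK⟩ := hall (1 / 12) (by norm_num) cc CC cc_pos CC_pos
  -- choose s
  obtain ⟨s, hs⟩ := exists_nat_gt (18 * |K| + 1000)
  have hK0 := abs_nonneg K
  have hs1000 : (1000 : ℝ) < s := by linarith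
  have hs1000' : 1000 < s := by exact_mod_cast hs1000
  have hs0 : (0 : ℝ) < s := by linarith
  set r : ℕ := s ^ 4 with hr
  have hr12 : 10 ^ 12 ≤ r := by
    calc 10 ^ 12 = 1000 ^ 4 := by norm_num
      _ ≤ s ^ 4 := Nat.pow_le_pow_left hs1000'.le 4
  have hrr : (r : ℝ) = (s : ℝ) ^ 4 := by rw [hr]; push_cast; ring
  have hr1 : (1 : ℝ) ≤ r := by
    have : 1 ≤ r := by omega
    exact_mod_cast this
  set N : ℝ := 3 * (4 * r + 1 / 2) ^ 2 with hN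
  set N' : ℝ := 3 * (5 * r + 1 / 2) ^ 2 with hN'
  have hN2 : 2 ≤ N := by rw [hN]; nlinarith
  have hN0 : 0 < N := by linarith
  have hNN' : N ≤ N' := by rw [hN, hN']; nlinarith
  have hN'N : N' ≤ 2 * N := by rw [hN, hN']; nlinarith
  have hNF : N ≤ N ^ (3 / 2 : ℝ) := by
    conv_lhs => rw [← Real.rpow_one N]
    exact Real.rpow_le_rpow_of_exponent_le (by linarith) (by norm_num)
  have h := hK N N' (N ^ (3 / 2 : ℝ)) fph hN2 hNN' hN'N hNF (contDiffOn_fph hN2)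
    (fun j x hx => deriv_bounds hN2 j x hx)
  have hceil : ⌈N⌉₊ = 3 * (4 * r) ^ 2 + 3 * (4 * r) + 1 := by
    rw [Nat.ceil_eq_iff (by omega)]
    rw [hN]
    push_cast
    constructor
    · nlinarith
    · nlinarith
  have hfloor : ⌊N'⌋₊ = 3 * (5 * r) ^ 2 + 3 * (5 * r) := by
    rw [Nat.floor_eq_iff (by positivity)]
    rw [hN']
    push_cast
    constructor
    · nlinarith
    · nlinarith
  rw [hceil, hfloor] at h
  have hset : Finset.Icc (3 * (4 * r) ^ 2 + 3 * (4 * r) + 1) (3 * (5 * r) ^ 2 + 3 * (5 * r)) =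
      Finset.Ico (3 * (4 * r) ^ 2 + 3 * (4 * r) + 1) (3 * (5 * r) ^ 2 + 3 * (5 * r) + 1) := by
    ext n; simp only [Finset.mem_Icc, Finset.mem_Ico]; omega
  rw [hset] at h
  have he : ∀ n : ℕ, Complex.exp (2 * (Real.pi : ℂ) * Complex.I * ((fph (n : ℝ) : ℝ) : ℂ)) = e (fph ((n : ℕ) : ℝ)) := by
    intro n
    unfold e
    congr 1
    push_cast
    ring
  simp only [he] at h
  have h2 := (big_sum r hr12).trans h
  have hsqrt : Real.sqrt r = (s : ℝ) ^ 2 := by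
    rw [hrr, show (s : ℝ) ^ 4 = (s ^ 2) ^ 2 by ring]
    exact Real.sqrt_sq (by positivity)
  rw [hsqrt, hrr] at h2
  have hNs : N ≤ 81 * (s : ℝ) ^ 8 := by
    rw [hN, hrr]
    have hs4 : (1 : ℝ) ≤ (s : ℝ) ^ 4 := by rw [← hrr]; exact hr1
    calc 3 * (4 * (s : ℝ) ^ 4 + 1 / 2) ^ 2 ≤ 3 * (4 * (s : ℝ) ^ 4 + 1 / 2 * (s : ℝ) ^ 4) ^ 2 := by gcongr; linarith
      _ = 60.75 * (s : ℝ) ^ 8 := by ring
      _ ≤ _ := by gcongr; norm_num
  have h3 : N ^ (1 / 2 : ℝ) ≤ 9 * (s : ℝ) ^ 4 := by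
    calc N ^ (1 / 2 : ℝ) ≤ ((9 * (s : ℝ) ^ 4) ^ (2 : ℝ)) ^ (1 / 2 : ℝ) := by
          apply Real.rpow_le_rpow hN0.le _ (by norm_num)
          rw [show (2 : ℝ) = ((2 : ℕ) : ℝ) by norm_num, Real.rpow_natCast]
          calc N ≤ 81 * (s : ℝ) ^ 8 := hNs
            _ = _ := by push_cast; ring
      _ = 9 * (s : ℝ) ^ 4 := by
          rw [← Real.rpow_mul (by positivity)]
          norm_num
  have h4 : (N ^ (3 / 2 : ℝ)) ^ (1 / 12 : ℝ) ≤ 2 * s := by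
    rw [← Real.rpow_mul hN0.le]
    have e1 : (3 / 2 : ℝ) * (1 / 12) = 1 / 8 := by norm_num
    rw [e1]
    calc N ^ (1 / 8 : ℝ) ≤ ((2 * (s : ℝ)) ^ (8 : ℝ)) ^ (1 / 8 : ℝ) := by
          apply Real.rpow_le_rpow hN0.le _ (by norm_num)
          rw [show (8 : ℝ) = ((8 : ℕ) : ℝ) by norm_num, Real.rpow_natCast]
          calc N ≤ 81 * (s : ℝ) ^ 8 := hNs
            _ ≤ 256 * (s : ℝ) ^ 8 := by gcongr; norm_num
            _ = _ := by push_cast; ring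
      _ = 2 * s := by
          rw [← Real.rpow_mul (by positivity)]
          norm_num
  have h5 : K * N ^ (1 / 2 : ℝ) * (N ^ (3 / 2 : ℝ)) ^ (1 / 12 : ℝ) ≤ |K| * (9 * (s : ℝ) ^ 4) * (2 * s) := by
    have hp1 : 0 ≤ N ^ (1 / 2 : ℝ) := by positivity
    have hp2 : 0 ≤ (N ^ (3 / 2 : ℝ)) ^ (1 / 12 : ℝ) := by positivity
    calc K * N ^ (1 / 2 : ℝ) * (N ^ (3 / 2 : ℝ)) ^ (1 / 12 : ℝ) ≤
          |K| * N ^ (1 / 2 : ℝ) * (N ^ (3 / 2 : ℝ)) ^ (1 / 12 : ℝ) := by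
          gcongr
          exact le_abs_self K
      _ ≤ _ := by gcongr
  have h6 : (s : ℝ) ^ 4 * s ^ 2 ≤ |K| * (9 * (s : ℝ) ^ 4) * (2 * s) := h2.trans h5
  have h7 : (s : ℝ) ^ 5 * s ≤ (s : ℝ) ^ 5 * (18 * |K|) := by
    calc (s : ℝ) ^ 5 * s = (s : ℝ) ^ 4 * s ^ 2 := by ring
      _ ≤ _ := h6
      _ = _ := by ring
  have h8 := le_of_mul_le_mul_left h7 (by positivity)
  linarith

end Pool.Agent.Y937.EP
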